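import Mathlib

/-!
# Prefix-closed normal forms with a sublinear fellow traveler property for the groups `ℤ² ⋊_M ℤ`
-/

set_option autoImplicit false

namespace Pool.Agent.Results.MP_df87fb_al.SolNormalForm

/-! ### Definitions -/

section Definitions

variable {G : Type} [Group G] {m : ℕ} (X : Fin m → G)

/-- The element of the group given by a letter: `(x, true)` is the generator `x` and `(x, false)` is
its formal inverse. -/
def letter (s : Fin m × Bool) : G := if s.2 then X s.1 else (X s.1)⁻¹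

/-- The evaluation map on words. -/
def ev (w : List (Fin m × Bool)) : G := (w.map (letter X)).prod

/-- The word metric: the least length of a word representing `g⁻¹ h`. -/
noncomputable def wdist (g h : G) : ℕ∞ :=
  ⨅ w : {w : List (Fin m × Bool) // ev X w = g⁻¹ * h}, (w.1.length : ℕ∞)

/-- A normal form: a language which the evaluation map sends bijectively onto the group. -/
def IsNormalForm (L : Set (List (Fin m × Bool))) : Prop := Set.BijOn (ev X) L Set.univ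

/-- The function `s_L(n)`: the maximum of the distances of the prefixes of length `t ≤ n` of words
`w₁, w₂ ∈ L` with `π(w₁) x = π(w₂)` for some `x ∈ X`. -/
noncomputable def sL (L : Set (List (Fin m × Bool))) (n : ℕ) : ℕ∞ :=
  ⨆ p : {p : ℕ × List (Fin m × Bool) × List (Fin m × Bool) // p.1 ≤ n ∧ p.2.1 ∈ L ∧ p.2.2 ∈ L ∧
    ∃ x, ev X p.2.1 * X x = ev X p.2.2}, wdist X (ev X (p.1.2.1.take p.1.1)) (ev X (p.1.2.2.take p.1.1))

/-- `h ⪯ f`. -/
def Dominated (h f : ℕ → ℝ) : Prop :=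
  ∃ K M : ℕ, 0 < K ∧ 0 < M ∧ ∃ n0, ∀ n ≥ n0, h n ≤ K * f (M * n)

/-- `h ≪ f`: `h t ⪯ f` for some unbounded nondecreasing function `t`. -/
def MuchSmaller (h f : ℕ → ℝ) : Prop :=
  ∃ t : ℕ → ℝ, (∀ n, 0 ≤ t n) ∧ Monotone t ∧ (∀ B, ∃ n, B ≤ t n) ∧ Dominated (fun n => h n * t n) f

/-- The `f(n)`-fellow traveler property: `s_L ⪯ f`. -/
def FellowTraveler (L : Set (List (Fin m × Bool))) (f : ℕ → ℝ) : Prop :=
  ∃ K M : ℕ, 0 < K ∧ 0 < M ∧ ∃ n0, ∀ n ≥ n0, sL X L n ≤ (⌊K * f (M * n)⌋₊ : ℕ∞)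

/-- The language is quasiregular. -/
def IsQuasiregular (L : Set (List (Fin m × Bool))) : Prop :=
  ∃ c : ℕ, ∀ w ∈ L, ∀ u, u <+: w → ∃ v : List (Fin m × Bool), v.length ≤ c ∧ u ++ v ∈ L

end Definitions

/-- The elements of the group `G_M = ℤ² ⋊_M ℤ`. -/
@[ext]
structure GM (M : GL (Fin 2) ℤ) where
  v : Fin 2 → ℤ
  k : ℤ

/-- The matrix `M` has two real eigenvalues, neither of which is `± 1`. -/
def TwoRealEigenvalues (M : GL (Fin 2) ℤ) : Prop :=
  ∃ l1 l2 : ℝ, ((M : Matrix (Fin 2) (Fin 2) ℤ).map (Int.castRingHom ℝ)).charpoly =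
    (Polynomial.X - Polynomial.C l1) * (Polynomial.X - Polynomial.C l2) ∧
    l1 ≠ 1 ∧ l1 ≠ -1 ∧ l2 ≠ 1 ∧ l2 ≠ -1

namespace GM

variable {M : GL (Fin 2) ℤ}

/-- The action of `M ^ k` on `ℤ²`. -/
def pw (M : GL (Fin 2) ℤ) (k : ℤ) (v : Fin 2 → ℤ) : Fin 2 → ℤ :=
  ((M ^ k : GL (Fin 2) ℤ) : Matrix (Fin 2) (Fin 2) ℤ).mulVec v

/-- The multiplication `(v, k) (v', k') = (v + M ^ k v', k + k')`. -/
instance : Mul (GM M) := ⟨fun g h => ⟨g.v + pw M g.k h.v, g.k + h.k⟩⟩
instance : One (GM M) := ⟨⟨0, 0⟩⟩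
instance : Inv (GM M) := ⟨fun g => ⟨-pw M (-g.k) g.v, -g.k⟩⟩

theorem pw_zero (v : Fin 2 → ℤ) : pw M 0 v = v := by simp [pw]
theorem pw_add (k : ℤ) (v w : Fin 2 → ℤ) : pw M k (v + w) = pw M k v + pw M k w := by
  simp [pw, Matrix.mulVec_add]
theorem pw_neg (k : ℤ) (v : Fin 2 → ℤ) : pw M k (-v) = -pw M k v := by
  simp [pw, Matrix.mulVec_neg]
theorem pw_zero' (k : ℤ) : pw M k 0 = 0 := by simp [pw]
theorem pw_pw (k l : ℤ) (v : Fin 2 → ℤ) : pw M k (pw M l v) = pw M (k + l) v := by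
  unfold pw
  rw [Matrix.mulVec_mulVec, zpow_add]
  rfl
theorem pw_smul (k n : ℤ) (v : Fin 2 → ℤ) : pw M k (n • v) = n • pw M k v := by
  exact Matrix.mulVec_smul _ _ _

theorem mul_v (g h : GM M) : (g * h).v = g.v + pw M g.k h.v := rfl
theorem mul_k (g h : GM M) : (g * h).k = g.k + h.k := rfl
theorem one_v : (1 : GM M).v = 0 := rfl
theorem one_k : (1 : GM M).k = 0 := rfl
theorem inv_v (g : GM M) : (g⁻¹).v = -pw M (-g.k) g.v := rfl
theorem inv_k (g : GM M) : (g⁻¹).k = -g.k := rfl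

instance : Group (GM M) where
  mul_assoc a b c := by
    apply GM.ext
    · rw [mul_v, mul_v, mul_v, mul_v, mul_k, pw_add, pw_pw, add_assoc]
    · rw [mul_k, mul_k, mul_k, mul_k, add_assoc]
  one_mul a := by
    apply GM.ext
    · rw [mul_v, one_v, one_k, pw_zero, zero_add]
    · rw [mul_k, one_k, zero_add]
  mul_one a := by
    apply GM.ext
    · rw [mul_v, one_v, pw_zero', add_zero]
    · rw [mul_k, one_k, add_zero]
  inv_mul_cancel a := by
    apply GM.ext
    · rw [mul_v, inv_v, inv_k, one_v, neg_add_cancel]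
    · rw [mul_k, inv_k, one_k, neg_add_cancel]

/-- The generators `t`, `a`, `b`. -/
def X (M : GL (Fin 2) ℤ) : Fin 3 → GM M := ![⟨0, 1⟩, ⟨![1, 0], 0⟩, ⟨![0, 1], 0⟩]

/-- The word `x^n`. -/
def wp (x : Fin 3) (n : ℤ) : List (Fin 3 × Bool) := List.replicate n.natAbs (x, decide (0 ≤ n))

/-- The word `t^k a^i b^j`. -/
def nf (k i j : ℤ) : List (Fin 3 × Bool) := wp 0 k ++ (wp 1 i ++ wp 2 j)

/-- The normal form. -/
def L : Set (List (Fin 3 × Bool)) := {w | ∃ k i j, w = nf k i j}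

theorem ev_append {G : Type} [Group G] {m : ℕ} (X : Fin m → G) (u w : List (Fin m × Bool)) :
    ev X (u ++ w) = ev X u * ev X w := by simp [ev]

theorem ev_wp (x : Fin 3) (n : ℤ) : ev (X M) (wp x n) = X M x ^ n := by
  unfold ev wp letter
  rw [List.map_replicate, List.prod_replicate]
  by_cases h : 0 ≤ n
  · rw [decide_eq_true h]
    simp only [if_true]
    rw [← zpow_natCast, Int.natAbs_of_nonneg h]
  · rw [decide_eq_false h]
    simp only [Bool.false_eq_true, if_false]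
    rw [inv_pow, ← zpow_natCast, ← zpow_neg]
    congr 1
    omega

theorem zpow_t (n : ℤ) : (⟨0, 1⟩ : GM M) ^ n = ⟨0, n⟩ := by
  induction n using Int.induction_on with
  | zero => rw [zpow_zero]; rfl
  | succ n ih =>
    rw [zpow_add_one, ih]
    apply GM.ext
    · rw [mul_v, pw_zero', add_zero]
    · rfl
  | pred n ih =>
    rw [zpow_sub_one, ih]
    apply GM.ext
    · rw [mul_v, inv_v, pw_zero', neg_zero, pw_zero', add_zero]
    · rfl

theorem zpow_v (v : Fin 2 → ℤ) (n : ℤ) : (⟨v, 0⟩ : GM M) ^ n = ⟨n • v, 0⟩ := by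
  induction n using Int.induction_on with
  | zero => rw [zpow_zero, zero_smul]; rfl
  | succ n ih =>
    rw [zpow_add_one, ih]
    apply GM.ext
    · rw [mul_v, pw_zero, add_smul, one_smul]
    · rfl
  | pred n ih =>
    rw [zpow_sub_one, ih]
    apply GM.ext
    · rw [mul_v, inv_v, pw_zero]
      show _ + -(pw M (-0) v) = _
      rw [neg_zero, pw_zero, sub_smul, one_smul, sub_eq_add_neg]
    · rfl

theorem ev_nf (k i j : ℤ) : ev (X M) (nf k i j) = ⟨pw M k ![i, j], k⟩ := by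
  unfold nf
  rw [ev_append, ev_append, ev_wp, ev_wp, ev_wp]
  show (⟨0, 1⟩ : GM M) ^ k * ((⟨![1, 0], 0⟩ : GM M) ^ i * (⟨![0, 1], 0⟩ : GM M) ^ j) = _
  rw [zpow_t, zpow_v, zpow_v]
  apply GM.ext
  · rw [mul_v, mul_v, pw_zero, zero_add]
    congr 1
    ext x
    fin_cases x <;> simp
  · rw [mul_k, mul_k]
    simp

theorem normalForm : IsNormalForm (X M) L := by
  refine ⟨fun _ _ => trivial, ?_, ?_⟩
  · rintro _ ⟨k, i, j, rfl⟩ _ ⟨k', i', j', rfl⟩ h
    rw [ev_nf, ev_nf] at h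
    have hk : k = k' := congrArg GM.k h
    subst hk
    have hv : pw M k ![i, j] = pw M k ![i', j'] := congrArg GM.v h
    have hv' := congrArg (pw M (-k)) hv
    rw [pw_pw, pw_pw, neg_add_cancel, pw_zero, pw_zero] at hv'
    have h1 : i = i' := congrFun hv' 0
    have h2 : j = j' := congrFun hv' 1
    rw [h1, h2]
  · rintro ⟨v, k⟩ -
    refine ⟨nf k (pw M (-k) v 0) (pw M (-k) v 1), ⟨k, _, _, rfl⟩, ?_⟩
    rw [ev_nf]
    have : ![pw M (-k) v 0, pw M (-k) v 1] = pw M (-k) v := by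
      ext x
      fin_cases x <;> rfl
    rw [this, pw_pw, add_neg_cancel, pw_zero]

/-! ### Prefixes -/

/-- Truncation. -/
def trunc (n : ℤ) (m : ℕ) : ℤ := if 0 ≤ n then min n m else -min (-n) m

theorem take_wp (x : Fin 3) (n : ℤ) (m : ℕ) : (wp x n).take m = wp x (trunc n m) := by
  unfold wp trunc
  rw [List.take_replicate]
  by_cases h : 0 ≤ n
  · rw [if_pos h, decide_eq_true h, decide_eq_true (by omega)]
    congr 1
    omega
  · rw [if_neg h, decide_eq_false h]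
    rcases Nat.eq_zero_or_pos m with rfl | hm
    · have h1 : min (-n) ((0 : ℕ) : ℤ) = 0 := by
        apply min_eq_right
        push_cast
        omega
      rw [h1]
      rfl
    · rw [decide_eq_false (by omega)]
      congr 1
      omega

theorem length_wp (x : Fin 3) (n : ℤ) : (wp x n).length = n.natAbs := by simp [wp]

theorem take_nf (k i j : ℤ) (m : ℕ) : (nf k i j).take m =
    nf (trunc k m) (trunc i (m - k.natAbs)) (trunc j (m - k.natAbs - i.natAbs)) := by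
  unfold nf
  rw [List.take_append, List.take_append, take_wp, take_wp, take_wp, length_wp, length_wp]

theorem quasiregular : IsQuasiregular L := by
  refine ⟨0, ?_⟩
  rintro _ ⟨k, i, j, rfl⟩ u hu
  refine ⟨[], le_rfl, ?_⟩
  rw [List.append_nil, List.prefix_iff_eq_take.1 hu, take_nf]
  exact ⟨_, _, _, rfl⟩

theorem abs_trunc (n : ℤ) (m : ℕ) : |trunc n m| ≤ m := by
  unfold trunc
  rw [abs_le]
  split_ifs <;> constructor <;> omega

theorem trunc_lip (n n' : ℤ) (m : ℕ) (h : |n' - n| ≤ 1) : |trunc n' m - trunc n m| ≤ 1 := by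
  unfold trunc
  rw [abs_le] at h ⊢
  split_ifs <;> constructor <;> omega

/-! ### Lengths -/

/-- The element `g` is given by a word of length at most `n`. -/
def HasLen (M : GL (Fin 2) ℤ) (g : GM M) (n : ℕ) : Prop := ∃ w, ev (X M) w = g ∧ w.length ≤ n

theorem HasLen.mul {g h : GM M} {n m : ℕ} (hg : HasLen M g n) (hh : HasLen M h m) :
    HasLen M (g * h) (n + m) := by
  obtain ⟨w, rfl, hw⟩ := hg
  obtain ⟨u, rfl, hu⟩ := hh
  exact ⟨w ++ u, ev_append _ _ _, by rw [List.length_append]; omega⟩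

theorem HasLen.mono {g : GM M} {n m : ℕ} (hg : HasLen M g n) (h : n ≤ m) : HasLen M g m := by
  obtain ⟨w, hw, hl⟩ := hg
  exact ⟨w, hw, hl.trans h⟩

theorem HasLen.inv {g : GM M} {n : ℕ} (hg : HasLen M g n) : HasLen M g⁻¹ n := by
  obtain ⟨w, rfl, hw⟩ := hg
  refine ⟨(w.map fun s => (s.1, !s.2)).reverse, ?_, by simpa using hw⟩
  clear hw
  induction w with
  | nil => simp [ev]
  | cons s w ih =>
    rw [List.map_cons, List.reverse_cons, ev_append, ih]
    have h1 : ev (X M) [(s.1, !s.2)] = (letter (X M) s)⁻¹ := by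
      rcases s with ⟨x, b⟩
      cases b <;> simp [ev, letter]
    rw [h1]
    have h2 : ev (X M) (s :: w) = letter (X M) s * ev (X M) w := by simp [ev]
    rw [h2, mul_inv_rev]

theorem hasLen_zpow (x : Fin 3) (n : ℤ) : HasLen M (X M x ^ n) n.natAbs :=
  ⟨wp x n, ev_wp x n, (length_wp x n).le⟩

theorem hasLen_t (n : ℤ) : HasLen M ⟨0, n⟩ n.natAbs := by
  have := hasLen_zpow (M := M) 0 n
  rwa [show X M 0 = ⟨0, 1⟩ from rfl, zpow_t] at this

theorem conj_t (n : ℤ) (u : Fin 2 → ℤ) :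
    (⟨0, n⟩ : GM M) * ⟨u, 0⟩ * ⟨0, -n⟩ = ⟨pw M n u, 0⟩ := by
  apply GM.ext
  · rw [mul_v, mul_v, pw_zero', zero_add, add_zero]
  · rw [mul_k, mul_k]
    simp

theorem HasLen.conj {u : Fin 2 → ℤ} {l : ℕ} (h : HasLen M ⟨u, 0⟩ l) (n : ℤ) :
    HasLen M ⟨pw M n u, 0⟩ (l + 2 * n.natAbs) := by
  rw [← conj_t]
  refine (((hasLen_t n).mul h).mul (hasLen_t (-n))).mono ?_
  rw [Int.natAbs_neg]
  omega

/-- The trace of `M²`. -/
def NN (M : GL (Fin 2) ℤ) : ℤ :=
  (M : Matrix (Fin 2) (Fin 2) ℤ).trace ^ 2 - 2 * (M : Matrix (Fin 2) (Fin 2) ℤ).det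

theorem det_cases (M : GL (Fin 2) ℤ) : (M : Matrix (Fin 2) (Fin 2) ℤ).det = 1 ∨
    (M : Matrix (Fin 2) (Fin 2) ℤ).det = -1 := by
  have h : IsUnit (M : Matrix (Fin 2) (Fin 2) ℤ).det := (Matrix.isUnit_iff_isUnit_det _).1 M.isUnit
  exact Int.isUnit_iff.1 h

theorem three_le_NN (h : TwoRealEigenvalues M) : 3 ≤ NN M := by
  obtain ⟨l1, l2, hc, h1, h2, h3, h4⟩ := h
  set A : Matrix (Fin 2) (Fin 2) ℤ := (M : Matrix (Fin 2) (Fin 2) ℤ) with hA
  have hcp := Matrix.charpoly_fin_two (A.map (Int.castRingHom ℝ))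
  rw [hc] at hcp
  have e1 := congrArg (Polynomial.eval 0) hcp
  have e2 := congrArg (Polynomial.eval 1) hcp
  have htr : (A.map (Int.castRingHom ℝ)).trace = (A.trace : ℝ) := by
    simp [Matrix.trace_fin_two]
  have hdet : (A.map (Int.castRingHom ℝ)).det = (A.det : ℝ) := by
    simp [Matrix.det_fin_two]
  rw [htr, hdet] at e1 e2
  simp only [Polynomial.eval_mul, Polynomial.eval_sub, Polynomial.eval_X, Polynomial.eval_C,
    Polynomial.eval_add, Polynomial.eval_pow] at e1 e2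
  have hprod : l1 * l2 = (A.det : ℝ) := by linarith
  have hsum : l1 + l2 = (A.trace : ℝ) := by linarith
  unfold NN
  rw [← hA]
  rcases det_cases M with hd | hd
  · rw [← hA] at hd
    rw [hd] at hprod ⊢
    have hne : l1 ≠ l2 := by
      rintro rfl
      have : (l1 - 1) * (l1 + 1) = 0 := by push_cast at hprod; linarith
      rcases mul_eq_zero.1 this with h | h
      · exact h1 (by linarith)
      · exact h2 (by linarith)
    have hpos : 0 < (l1 - l2) ^ 2 := by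
      have := sub_ne_zero.2 hne
      positivity
    have h5 : (4 : ℝ) < (A.trace : ℝ) ^ 2 := by
      rw [← hsum]
      push_cast at hprod
      nlinarith
    have h6 : (4 : ℤ) < A.trace ^ 2 := by exact_mod_cast h5
    omega
  · rw [← hA] at hd
    rw [hd] at hprod ⊢
    have hne : A.trace ≠ 0 := by
      intro h0
      rw [h0] at hsum
      push_cast at hsum hprod
      have : (l1 - 1) * (l1 + 1) = 0 := by
        have h5 : l2 = -l1 := by linarith
        rw [h5] at hprod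
        linarith
      rcases mul_eq_zero.1 this with h | h
      · exact h1 (by linarith)
      · exact h2 (by linarith)
    have : 0 < A.trace ^ 2 := by positivity
    omega

/-- The relation `N v = M² v + M⁻² v`. -/
theorem key_relation (v : Fin 2 → ℤ) : NN M • v = pw M 2 v + pw M (-2) v := by
  set A : Matrix (Fin 2) (Fin 2) ℤ := (M : Matrix (Fin 2) (Fin 2) ℤ) with hA
  have hsq : A.det * A.det = 1 := by
    rcases det_cases M with h | h <;> rw [← hA] at h <;> rw [h] <;> norm_num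
  -- it suffices to check after applying `M²`
  have hinj : ∀ u w : Fin 2 → ℤ, pw M 2 u = pw M 2 w → u = w := by
    intro u w h
    have := congrArg (pw M (-2)) h
    rwa [pw_pw, pw_pw, neg_add_cancel, pw_zero, pw_zero] at this
  apply hinj
  rw [pw_add, pw_pw, pw_pw, pw_smul, show (2 : ℤ) + -2 = 0 by norm_num, pw_zero]
  have hp : ∀ u : Fin 2 → ℤ, pw M 2 u = A.mulVec (A.mulVec u) := by
    intro u
    rw [show (2 : ℤ) = 1 + 1 by norm_num, ← pw_pw]
    unfold pw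
    rw [zpow_one]
  have hp4 : pw M (2 + 2) v = A.mulVec (A.mulVec (A.mulVec (A.mulVec v))) := by
    rw [← pw_pw, hp, hp]
  rw [hp4, hp]
  unfold NN
  rw [← hA]
  rw [Matrix.det_fin_two] at hsq ⊢
  rw [Matrix.trace_fin_two]
  ext x
  fin_cases x
  · simp only [Fin.zero_eta, Pi.smul_apply, Pi.add_apply, Matrix.mulVec, dotProduct,
      Fin.sum_univ_two, smul_eq_mul]
    linear_combination (v 0) * hsq
  · simp only [Fin.mk_one, Pi.smul_apply, Pi.add_apply, Matrix.mulVec, dotProduct,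
      Fin.sum_univ_two, smul_eq_mul]
    linear_combination (v 1) * hsq

/-- The lengths of the elements `(n v, 0)`. -/
theorem hasLen_smul (h3 : 3 ≤ NN M) (x : Fin 3) (v : Fin 2 → ℤ) (hx : X M x = ⟨v, 0⟩) (n : ℕ) :
    ∃ l, HasLen M ⟨(n : ℤ) • v, 0⟩ l ∧
      l + ((NN M).toNat + 8) ≤ (2 * (NN M).toNat + 8) * 2 ^ Nat.log 3 n := by
  obtain ⟨N, hN⟩ : ∃ N : ℕ, NN M = N := ⟨(NN M).toNat, by omega⟩
  have hN3 : 3 ≤ N := by omega
  rw [hN, Int.toNat_natCast]
  induction n using Nat.strong_induction_on with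
  | _ n ih =>
    rcases Nat.lt_or_ge n N with hlt | hge
    · refine ⟨n, ?_, ?_⟩
      · have := hasLen_zpow (M := M) x n
        rwa [hx, zpow_v, Int.natAbs_natCast] at this
      · have h1 : 1 ≤ 2 ^ Nat.log 3 n := Nat.one_le_two_pow
        nlinarith
    · set q := n / N with hq
      set r := n % N with hr
      have hdiv : N * q + r = n := Nat.div_add_mod n N
      have hrN : r < N := Nat.mod_lt _ (by omega)
      have hq1 : 1 ≤ q := (Nat.one_le_div_iff (by omega)).2 hge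
      have hqn : q < n := Nat.div_lt_self (by omega) (by omega)
      obtain ⟨l, hl, hl2⟩ := ih q hqn
      have h1 : (⟨(n : ℤ) • v, 0⟩ : GM M) =
          ⟨pw M 2 ((q : ℤ) • v), 0⟩ * ⟨pw M (-2) ((q : ℤ) • v), 0⟩ * ⟨(r : ℤ) • v, 0⟩ := by
        apply GM.ext
        · rw [mul_v, mul_v, pw_zero]
          show (n : ℤ) • v = pw M 2 ((q : ℤ) • v) + pw M (-2) ((q : ℤ) • v) + pw M (0 + 0) ((r : ℤ) • v)
          rw [add_zero, pw_zero, ← key_relation, hN, ← hdiv, smul_smul, ← add_smul]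
          push_cast
          rfl
        · rfl
      refine ⟨(l + 4) + (l + 4) + r, ?_, ?_⟩
      · rw [h1]
        refine ((hl.conj 2).mul (hl.conj (-2))).mul ?_
        have := hasLen_zpow (M := M) x r
        rwa [hx, zpow_v, Int.natAbs_natCast] at this
      · have h2 : Nat.log 3 q + 1 ≤ Nat.log 3 n := by
          rw [← Nat.log_mul_base (by norm_num) (by omega)]
          refine Nat.log_mono_right ?_
          nlinarith
        have h3 : 2 ^ (Nat.log 3 q + 1) ≤ 2 ^ Nat.log 3 n := Nat.pow_le_pow_right (by norm_num) h2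
        rw [pow_succ] at h3
        have h4 : (2 * N + 8) * (2 ^ Nat.log 3 q * 2) ≤ (2 * N + 8) * 2 ^ Nat.log 3 n :=
          Nat.mul_le_mul_left _ h3
        have h5 : (2 * N + 8) * (2 ^ Nat.log 3 q * 2) = 2 * ((2 * N + 8) * 2 ^ Nat.log 3 q) := by
          ring
        rw [h5] at h4
        omega

theorem hasLen_smul_int (h3 : 3 ≤ NN M) (x : Fin 3) (v : Fin 2 → ℤ) (hx : X M x = ⟨v, 0⟩) (n : ℤ)
    (R : ℕ) (hR : |n| ≤ R) :
    HasLen M ⟨n • v, 0⟩ ((2 * (NN M).toNat + 8) * 2 ^ Nat.log 3 R) := by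
  have key : ∀ k : ℕ, k ≤ R → HasLen M ⟨(k : ℤ) • v, 0⟩ ((2 * (NN M).toNat + 8) * 2 ^ Nat.log 3 R) := by
    intro k hk
    obtain ⟨l, hl, hl2⟩ := hasLen_smul h3 x v hx k
    refine hl.mono ?_
    have h1 : 2 ^ Nat.log 3 k ≤ 2 ^ Nat.log 3 R :=
      Nat.pow_le_pow_right (by norm_num) (Nat.log_mono_right hk)
    have h2 := Nat.mul_le_mul_left (2 * (NN M).toNat + 8) h1
    omega
  rcases le_total 0 n with h | h
  · obtain ⟨k, rfl⟩ := Int.eq_ofNat_of_zero_le h
    exact key k (by rw [Int.abs_natCast] at hR; exact_mod_cast hR)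
  · obtain ⟨k, hk⟩ := Int.eq_ofNat_of_zero_le (neg_nonneg.2 h)
    have hn : n = -(k : ℤ) := by omega
    have h1 := (key k (by
      rw [hn, abs_neg, Int.abs_natCast] at hR
      exact_mod_cast hR)).inv
    have h2 : (⟨(k : ℤ) • v, 0⟩ : GM M)⁻¹ = ⟨n • v, 0⟩ := by
      apply GM.ext
      · rw [inv_v]
        show -(pw M (-0) _) = _
        rw [neg_zero, pw_zero, hn, neg_smul]
      · rfl
    rwa [h2] at h1

theorem hasLen_v (h3 : 3 ≤ NN M) (u : Fin 2 → ℤ) (R : ℕ) (hR : ∀ x, |u x| ≤ R) (δ : ℤ)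
    (hδ : |δ| ≤ 1) :
    HasLen M ⟨u, δ⟩ ((4 * (NN M).toNat + 17) * 2 ^ Nat.log 3 R) := by
  have h1 : (⟨u, δ⟩ : GM M) = ⟨u 0 • ![1, 0], 0⟩ * ⟨u 1 • ![0, 1], 0⟩ * ⟨0, δ⟩ := by
    apply GM.ext
    · rw [mul_v, mul_v, pw_zero, pw_zero', add_zero]
      ext x
      fin_cases x <;> simp
    · rw [mul_k, mul_k]
      simp
  rw [h1]
  refine (((hasLen_smul_int h3 1 _ rfl (u 0) R (hR 0)).mul
    (hasLen_smul_int h3 2 _ rfl (u 1) R (hR 1))).mul (hasLen_t δ)).mono ?_
  have h2 : δ.natAbs ≤ 1 := by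
    rw [Int.abs_eq_natAbs] at hδ
    exact_mod_cast hδ
  have h4 : 1 ≤ 2 ^ Nat.log 3 R := Nat.one_le_two_pow
  nlinarith

/-- A bound for the entries of `M` and of its inverse. -/
theorem exists_bound (M : GL (Fin 2) ℤ) : ∃ μ : ℕ, ∀ (δ : ℤ), |δ| ≤ 1 → ∀ (v : Fin 2 → ℤ) (n : ℕ),
    (∀ x, |v x| ≤ n) → ∀ x, |pw M δ v x| ≤ μ * n := by
  have hone : ∀ δ : ℤ, ∃ μ : ℕ, ∀ (v : Fin 2 → ℤ) (n : ℕ),
      (∀ x, |v x| ≤ n) → ∀ x, |pw M δ v x| ≤ μ * n := by
    intro δ
    set A : Matrix (Fin 2) (Fin 2) ℤ := ((M ^ δ : GL (Fin 2) ℤ) : Matrix (Fin 2) (Fin 2) ℤ) with hA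
    refine ⟨(|A 0 0| + |A 0 1| + |A 1 0| + |A 1 1|).toNat, fun v n hv x => ?_⟩
    have h00 := abs_nonneg (A 0 0)
    have h01 := abs_nonneg (A 0 1)
    have h10 := abs_nonneg (A 1 0)
    have h11 := abs_nonneg (A 1 1)
    rw [Int.toNat_of_nonneg (by positivity)]
    have hn : (0 : ℤ) ≤ n := Int.natCast_nonneg n
    have key : |pw M δ v x| ≤ (|A x 0| + |A x 1|) * n := by
      have h1 : pw M δ v x = A x 0 * v 0 + A x 1 * v 1 := by
        simp [pw, Matrix.mulVec, dotProduct, Fin.sum_univ_two, hA]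
      rw [h1]
      refine (abs_add_le _ _).trans ?_
      rw [abs_mul, abs_mul, add_mul]
      exact add_le_add (mul_le_mul_of_nonneg_left (hv 0) (abs_nonneg _))
        (mul_le_mul_of_nonneg_left (hv 1) (abs_nonneg _))
    refine key.trans (mul_le_mul_of_nonneg_right ?_ hn)
    fin_cases x
    · show |A 0 0| + |A 0 1| ≤ _
      linarith
    · show |A 1 0| + |A 1 1| ≤ _
      linarith
  obtain ⟨μ0, h0⟩ := hone 0
  obtain ⟨μ1, h1⟩ := hone 1
  obtain ⟨μ2, h2⟩ := hone (-1)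
  refine ⟨μ0 + μ1 + μ2, fun δ hδ v n hv x => ?_⟩
  have hn : (0 : ℤ) ≤ n := Int.natCast_nonneg n
  rw [abs_le] at hδ
  have hcase : δ = 0 ∨ δ = 1 ∨ δ = -1 := by omega
  push_cast
  rcases hcase with rfl | rfl | rfl
  · refine (h0 v n hv x).trans (mul_le_mul_of_nonneg_right ?_ hn)
    omega
  · refine (h1 v n hv x).trans (mul_le_mul_of_nonneg_right ?_ hn)
    omega
  · refine (h2 v n hv x).trans (mul_le_mul_of_nonneg_right ?_ hn)
    omega

theorem wdist_le {g h : GM M} {n : ℕ} (hl : HasLen M (g⁻¹ * h) n) : wdist (X M) g h ≤ n := by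
  obtain ⟨w, hw, hwn⟩ := hl
  exact (iInf_le (fun w : {w : List (Fin 3 × Bool) // ev (X M) w = g⁻¹ * h} => (w.1.length : ℕ∞))
    ⟨w, hw⟩).trans (by exact_mod_cast hwn)

/-- The function of the fellow traveler property. -/
def f (n : ℕ) : ℝ := 2 ^ Nat.log 3 n

theorem f_mono : Monotone f := by
  intro m n h
  exact pow_le_pow_right₀ (by norm_num) (Nat.log_mono_right h)

theorem f_small : MuchSmaller f (fun n => n) := by
  refine ⟨fun n => (3 / 2 : ℝ) ^ Nat.log 3 n, fun n => by positivity, fun m n h =>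
    pow_le_pow_right₀ (by norm_num) (Nat.log_mono_right h), fun B => ?_, 1, 1, one_pos, one_pos, 1,
    fun n hn => ?_⟩
  · obtain ⟨k, hk⟩ := pow_unbounded_of_one_lt B (show (1 : ℝ) < 3 / 2 by norm_num)
    refine ⟨3 ^ k, ?_⟩
    show B ≤ (3 / 2 : ℝ) ^ Nat.log 3 (3 ^ k)
    rw [Nat.log_pow (by norm_num)]
    exact hk.le
  · show (2 : ℝ) ^ Nat.log 3 n * (3 / 2 : ℝ) ^ Nat.log 3 n ≤ _
    rw [← mul_pow]
    have h1 : (2 * (3 / 2) : ℝ) = 3 := by norm_num
    rw [h1]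
    have h2 : 3 ^ Nat.log 3 n ≤ n := Nat.pow_log_le_self 3 (by omega)
    have h3 : ((3 : ℝ)) ^ Nat.log 3 n ≤ n := by exact_mod_cast h2
    simpa using h3

theorem fellow (h3 : 3 ≤ NN M) : FellowTraveler (X M) L f := by
  obtain ⟨μ, hμ⟩ := exists_bound M
  refine ⟨4 * (NN M).toNat + 17, 1 + μ, by omega, by omega, 0, fun n _ => ?_⟩
  refine iSup_le ?_
  rintro ⟨⟨T, w1, w2⟩, hT, hw1, hw2, x, hx⟩
  have hT' : T ≤ n := hT
  show wdist (X M) (ev (X M) (w1.take T)) (ev (X M) (w2.take T)) ≤ _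
  have hx' : ev (X M) w1 * X M x = ev (X M) w2 := hx
  clear hx
  obtain ⟨k, i, j, hw1'⟩ : ∃ k i j, w1 = nf k i j := hw1
  obtain ⟨k', i', j', hw2'⟩ : ∃ k i j, w2 = nf k i j := hw2

  subst hw1' hw2'
  rw [ev_nf, ev_nf] at hx'
  have hk : |k' - k| ≤ 1 := by
    have h1 : k + (X M x).k = k' := congrArg GM.k hx'
    have h2 : (X M x).k = 0 ∨ (X M x).k = 1 := by
      fin_cases x
      · exact Or.inr rfl
      · exact Or.inl rfl
      · exact Or.inl rfl
    rw [abs_le]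
    constructor <;> omega
  rw [take_nf, take_nf, ev_nf, ev_nf]
  set κ := trunc k T with hκ
  set κ' := trunc k' T with hκ'
  have hκκ : |κ' - κ| ≤ 1 := trunc_lip k k' T hk
  set u : Fin 2 → ℤ := ![trunc i (T - k.natAbs), trunc j (T - k.natAbs - i.natAbs)] with hu
  set u' : Fin 2 → ℤ := ![trunc i' (T - k'.natAbs), trunc j' (T - k'.natAbs - i'.natAbs)] with hu'
  have hub : ∀ x, |u x| ≤ n := by
    intro x
    fin_cases x
    · refine (abs_trunc _ _).trans ?_
      omega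
    · refine (abs_trunc _ _).trans ?_
      omega
  have hub' : ∀ x, |u' x| ≤ n := by
    intro x
    fin_cases x
    · refine (abs_trunc _ _).trans ?_
      omega
    · refine (abs_trunc _ _).trans ?_
      omega
  have hdiff : (⟨pw M κ u, κ⟩ : GM M)⁻¹ * ⟨pw M κ' u', κ'⟩ = ⟨-u + pw M (κ' - κ) u', κ' - κ⟩ := by
    apply GM.ext
    · rw [mul_v, inv_v, inv_k]
      show -(pw M (-κ) (pw M κ u)) + pw M (-κ) (pw M κ' u') = _
      rw [pw_pw, pw_pw, neg_add_cancel, pw_zero]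
      congr 2
      ring
    · rw [mul_k, inv_k]
      show -κ + κ' = κ' - κ
      ring
  have hlen : HasLen M ((⟨pw M κ u, κ⟩ : GM M)⁻¹ * ⟨pw M κ' u', κ'⟩)
      ((4 * (NN M).toNat + 17) * 2 ^ Nat.log 3 ((1 + μ) * n)) := by
    rw [hdiff]
    refine hasLen_v h3 _ _ (fun x => ?_) _ hκκ
    have h1 := hμ (κ' - κ) hκκ u' n hub' x
    have h2 := hub x
    show |-(u x) + pw M (κ' - κ) u' x| ≤ _
    refine (abs_add_le _ _).trans ?_
    rw [abs_neg]
    push_cast
    linarith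
  refine (wdist_le hlen).trans ?_
  have h5 : ⌊((4 * (NN M).toNat + 17 : ℕ) : ℝ) * f ((1 + μ) * n)⌋₊ =
      (4 * (NN M).toNat + 17) * 2 ^ Nat.log 3 ((1 + μ) * n) := by
    have h6 : ((4 * (NN M).toNat + 17 : ℕ) : ℝ) * f ((1 + μ) * n) =
        (((4 * (NN M).toNat + 17) * 2 ^ Nat.log 3 ((1 + μ) * n) : ℕ) : ℝ) := by
      unfold f
      push_cast
      ring
    rw [h6, Nat.floor_natCast]
  rw [h5]

end GM

/-- **Main result.** For all matrices `M ∈ GL(2,ℤ)` with two real eigenvalues, neither equal to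
`± 1`, the group `G_M = ℤ² ⋊_M ℤ` has a quasiregular normal form with the `f(n)`-fellow traveler
property for a nondecreasing function `f ≪ n`. -/
theorem result (M : GL (Fin 2) ℤ) (hM : TwoRealEigenvalues M) :
    ∃ (m : ℕ) (X : Fin m → GM M), Subgroup.closure (Set.range X) = ⊤ ∧
      ∃ L : Set (List (Fin m × Bool)), IsNormalForm X L ∧ IsQuasiregular L ∧
        ∃ f : ℕ → ℝ, Monotone f ∧ (∀ n, 0 ≤ f n) ∧ MuchSmaller f (fun n => n) ∧
          FellowTraveler X L f := by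
  refine ⟨3, GM.X M, ?_, GM.L, GM.normalForm, GM.quasiregular, GM.f, GM.f_mono,
    fun n => by unfold GM.f; positivity, GM.f_small, GM.fellow (GM.three_le_NN hM)⟩
  rw [eq_top_iff]
  intro g _
  obtain ⟨w, -, hw⟩ := (GM.normalForm (M := M)).surjOn (Set.mem_univ g)
  rw [← hw]
  refine Subgroup.list_prod_mem _ ?_
  intro x hx
  obtain ⟨⟨y, b⟩, -, rfl⟩ := List.mem_map.1 hx
  cases b
  · exact Subgroup.inv_mem _ (Subgroup.subset_closure ⟨y, rfl⟩)
  · exact Subgroup.subset_closure ⟨y, rfl⟩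

end Pool.Agent.Results.MP_df87fb_al.SolNormalForm
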